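import Pool.Agent.Helper69.CRemF

open Set MeasureTheory

namespace Pool.Agent.Results.MP_95ad2c_an.CantorDustRemovable

/-- `f` is locally convex on the set `U`: every point of `U` has an open convex neighbourhood
contained in `U` on which `f` is convex. -/
def LocallyConvex {d : ℕ} (f : EuclideanSpace ℝ (Fin d) → ℝ)
    (U : Set (EuclideanSpace ℝ (Fin d))) : Prop :=
  ∀ x ∈ U, ∃ V : Set (EuclideanSpace ℝ (Fin d)),
    IsOpen V ∧ Convex ℝ V ∧ x ∈ V ∧ V ⊆ U ∧ ConvexOn ℝ V f

/-- A closed set `A` is c-removable: every continuous real function on the whole space which is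
locally convex on the complement of `A` is convex. -/
def CRemovable {d : ℕ} (A : Set (EuclideanSpace ℝ (Fin d))) : Prop :=
  IsClosed A ∧ ∀ f : EuclideanSpace ℝ (Fin d) → ℝ,
    Continuous f → LocallyConvex f Aᶜ → ConvexOn ℝ univ f

/-- The Cantor dust `C × C` in the Euclidean plane, `C` being the middle-thirds Cantor set. -/
def cantorDust : Set (EuclideanSpace ℝ (Fin 2)) :=
  {z | z 0 ∈ cantorSet ∧ z 1 ∈ cantorSet}

/-- The Cantor dust is c-removable. -/
theorem result : CRemovable cantorDust := by
  constructor
  · have h0 : Continuous fun z : EuclideanSpace ℝ (Fin 2) => z 0 := by fun_prop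
    have h1 : Continuous fun z : EuclideanSpace ℝ (Fin 2) => z 1 := by fun_prop
    exact (isClosed_cantorSet.preimage h0).inter (isClosed_cantorSet.preimage h1)
  · intro f hf hloc
    let e : ℝ × ℝ →ₗ[ℝ] EuclideanSpace ℝ (Fin 2) :=
      { toFun := fun p => WithLp.toLp 2 ![p.1, p.2]
        map_add' := by
          intro p q
          ext i
          fin_cases i <;> simp
        map_smul' := by
          intro c p
          ext i
          fin_cases i <;> simp }
    have he0 : ∀ p, (e p) 0 = p.1 := fun p => rfl
    have he1 : ∀ p, (e p) 1 = p.2 := fun p => rfl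
    have hec : Continuous e := e.continuous_of_finiteDimensional
    have hLC : Helper69.CRem.LC (f ∘ e) (cantorSet ×ˢ cantorSet) := by
      intro p hp
      obtain ⟨V, hVo, _, hpV, _, hVc⟩ := hloc (e p) (by
        intro h
        exact hp ⟨h.1, h.2⟩)
      exact ⟨e ⁻¹' V, hVo.preimage hec, hpV, hVc.comp_linearMap e⟩
    have hconv := Helper69.CRem.convexOn_univ isCompact_cantorSet isCompact_cantorSet
      Helper69.CRem.volume_cantorSet Helper69.CRem.volume_cantorSet (hf.comp hec) hLC
    let π : EuclideanSpace ℝ (Fin 2) →ₗ[ℝ] ℝ × ℝ :=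
      { toFun := fun z => (z 0, z 1)
        map_add' := by
          intro p q
          simp
        map_smul' := by
          intro c p
          simp }
    have hπ : ∀ z, e (π z) = z := by
      intro z
      ext i
      fin_cases i <;> rfl
    have := hconv.comp_linearMap π
    have hfe : (f ∘ e) ∘ π = f := by
      ext z
      simp only [Function.comp_apply, hπ]
    rw [hfe, preimage_univ] at this
    exact this

end Pool.Agent.Results.MP_95ad2c_an.CantorDustRemovable
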